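import Pool.Agent.H57DC.C4
import Pool.Agent.R100.DC.C
import Pool.Agent.R100.DC.C2

/-! H57: the core for graphs in which every vertex has a neighbour in every `K_4`. -/

set_option autoImplicit false
set_option linter.unusedSectionVars false

namespace H57DC

open R100DC Finset C3

variable {V : Type} [Fintype V] [DecidableEq V]

/-- a clique contains at most three non-neighbours of a vertex -/
theorem nonnbr {G : SimpleGraph V} (hdom : Dom G) (U : Finset V)
    (hcl : ∀ a ∈ U, ∀ b ∈ U, a ≠ b → G.Adj a b) (u : V) (N : Finset V) (hN : N ⊆ U)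
    (hN2 : ∀ x ∈ N, ¬ G.Adj u x) : N.card ≤ 3 := by
  by_contra hlt
  obtain ⟨a, b, c, e, ha, hb, hc, he, hab, hac, hae, hbc, hbe, hce⟩ :=
    Finset.three_lt_card_iff.1 (show 3 < N.card by omega)
  have ha' := hN ha
  have hb' := hN hb
  have hc' := hN hc
  have he' := hN he
  rcases hdom a b c e (hcl a ha' b hb' hab) (hcl a ha' c hc' hac) (hcl a ha' e he' hae)
    (hcl b hb' c hc' hbc) (hcl b hb' e he' hbe) (hcl c hc' e he' hce) u with h | h | h | h
  · exact hN2 a ha h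
  · exact hN2 b hb h
  · exact hN2 c hc h
  · exact hN2 e he h

/-- a clique contains at most two neighbours of `u` -/
theorem nbr {G : SimpleGraph V} (hdom : Dom G) (U : Finset V)
    (hcl : ∀ a ∈ U, ∀ b ∈ U, a ≠ b → G.Adj a b) (u v : V) (huv : ¬ G.Adj u v)
    (hnc : ∀ y, ¬ (G.Adj u y ∧ G.Adj v y)) (N : Finset V) (hN : N ⊆ U)
    (hN2 : ∀ x ∈ N, G.Adj u x) : N.card ≤ 2 := by
  by_contra hlt
  obtain ⟨a, b, c, ha, hb, hc, hab, hac, hbc⟩ :=
    Finset.two_lt_card_iff.1 (show 2 < N.card by omega)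
  rcases hdom u a b c (hN2 a ha) (hN2 b hb) (hN2 c hc) (hcl a (hN ha) b (hN hb) hab)
    (hcl a (hN ha) c (hN hc) hac) (hcl b (hN hb) c (hN hc) hbc) v with h | h | h | h
  · exact huv h.symm
  · exact hnc a ⟨hN2 a ha, h⟩
  · exact hnc b ⟨hN2 b hb, h⟩
  · exact hnc c ⟨hN2 c hc, h⟩

/-- four unmatched vertices -/
theorem four (hK : StmK) (hV : StmV) (hE : StmE) (G : SimpleGraph V) (hdom : Dom G) (u v : V)
    (huv : u ≠ v) (hadj : ¬ G.Adj u v) (hnc : ∀ y, ¬ (G.Adj u y ∧ G.Adj v y)) (T U : Finset V)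
    (hT : CoM G T) (huT : u ∉ T) (hvT : v ∉ T) (huU : u ∉ U) (hvU : v ∉ U)
    (hUT : ∀ x ∈ U, x ∉ T) (hcl : ∀ a ∈ U, ∀ b ∈ U, a ≠ b → G.Adj a b)
    (hcov : ∀ y, y = u ∨ y = v ∨ y ∈ U ∨ y ∈ T) (hU : U.card = 4) : Splits G := by
  classical
  have h1 : ∃ a ∈ U, G.Adj u a := by
    by_contra hcon
    push Not at hcon
    have := nonnbr hdom U hcl u U (subset_refl U) hcon
    omega
  have h2 : ∃ c ∈ U, G.Adj v c := by
    by_contra hcon
    push Not at hcon
    have := nonnbr hdom U hcl v U (subset_refl U) hcon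
    omega
  obtain ⟨a, ha, hua⟩ := h1
  obtain ⟨c, hc, hvc⟩ := h2
  have hac : a ≠ c := fun h => hnc a ⟨hua, h ▸ hvc⟩
  have hca : c ∈ U.erase a := mem_erase.2 ⟨hac.symm, hc⟩
  have hcard : ((U.erase a).erase c).card = 2 := by
    rw [card_erase_of_mem hca, card_erase_of_mem ha, hU]
  obtain ⟨r, s, hrs, hset⟩ := card_eq_two.1 hcard
  have hmem : ∀ y, y ∈ U → y = a ∨ y = c ∨ y = r ∨ y = s := by
    intro y hy
    by_cases h1 : y = a
    · exact Or.inl h1
    by_cases h2 : y = c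
    · exact Or.inr (Or.inl h2)
    have : y ∈ (U.erase a).erase c := mem_erase.2 ⟨h2, mem_erase.2 ⟨h1, hy⟩⟩
    rw [hset] at this
    simpa [h1, h2] using this
  have hr : r ∈ (U.erase a).erase c := by rw [hset]; simp
  have hs : s ∈ (U.erase a).erase c := by rw [hset]; simp
  simp only [mem_erase] at hr hs
  obtain ⟨hrc, hra, hrU⟩ := hr
  obtain ⟨hsc, hsa, hsU⟩ := hs
  have neu : ∀ {x : V}, x ∈ U → x ≠ u := fun hx h => huU (h ▸ hx)
  have nev : ∀ {x : V}, x ∈ U → x ≠ v := fun hx h => hvU (h ▸ hx)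
  refine fin4p hK hV hE G u a v c r s T hT (neu ha).symm huv (neu hc).symm (nev ha) hac
    (nev hc).symm (neu hrU) hra (nev hrU) hrc (neu hsU) hsa (nev hsU) hsc hrs huT (hUT a ha) hvT
    (hUT c hc) (hUT r hrU) (hUT s hsU) ?_ ?_
  · intro y
    rcases hcov y with h | h | h | h
    · simp [h]
    · simp [h]
    · rcases hmem y h with h | h | h | h <;> simp [h]
    · simp [h]
  · rw [A_adj hua, A_adj hvc, A_nadj hadj, A_nadj (fun h => hnc c ⟨h, hvc⟩),
      A_nadj (fun h => hnc a ⟨hua, h.symm⟩ : ¬ G.Adj a v), A_adj (hcl a ha c hc hac)]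
    norm_num

/-- five unmatched vertices -/
theorem five (hK : StmK) (hV : StmV) (hE : StmE) (G : SimpleGraph V) (hdom : Dom G) (u v : V)
    (huv : u ≠ v) (hadj : ¬ G.Adj u v) (hnc : ∀ y, ¬ (G.Adj u y ∧ G.Adj v y)) (T U : Finset V)
    (hT : CoM G T) (huT : u ∉ T) (hvT : v ∉ T) (huU : u ∉ U) (hvU : v ∉ U)
    (hUT : ∀ x ∈ U, x ∉ T) (hcl : ∀ a ∈ U, ∀ b ∈ U, a ≠ b → G.Adj a b)
    (hcov : ∀ y, y = u ∨ y = v ∨ y ∈ U ∨ y ∈ T) (hU : U.card = 5) : Splits G := by
  classical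
  have key : ∀ w : V, 1 < (U.filter fun x => G.Adj w x).card := by
    intro w
    have h1 := nonnbr hdom U hcl w (U.filter fun x => ¬ G.Adj w x) (filter_subset _ _)
      (fun x hx => (mem_filter.1 hx).2)
    have h2 := Finset.card_filter_add_card_filter_not (s := U) (fun x => G.Adj w x)
    omega
  obtain ⟨a, ha, b, hb, hab⟩ := one_lt_card.1 (key u)
  obtain ⟨c, hc, e, he, hce⟩ := one_lt_card.1 (key v)
  obtain ⟨ha, hua⟩ := mem_filter.1 ha
  obtain ⟨hb, hub⟩ := mem_filter.1 hb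
  obtain ⟨hc, hvc⟩ := mem_filter.1 hc
  obtain ⟨he, hve⟩ := mem_filter.1 he
  have hac : a ≠ c := fun h => hnc a ⟨hua, h ▸ hvc⟩
  have hae : a ≠ e := fun h => hnc a ⟨hua, h ▸ hve⟩
  have hbc : b ≠ c := fun h => hnc b ⟨hub, h ▸ hvc⟩
  have hbe : b ≠ e := fun h => hnc b ⟨hub, h ▸ hve⟩
  have m1 : b ∈ U.erase a := mem_erase.2 ⟨hab.symm, hb⟩
  have m2 : c ∈ (U.erase a).erase b := mem_erase.2 ⟨hbc.symm, mem_erase.2 ⟨hac.symm, hc⟩⟩
  have m3 : e ∈ ((U.erase a).erase b).erase c :=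
    mem_erase.2 ⟨hce.symm, mem_erase.2 ⟨hbe.symm, mem_erase.2 ⟨hae.symm, he⟩⟩⟩
  have hcard : ((((U.erase a).erase b).erase c).erase e).card = 1 := by
    rw [card_erase_of_mem m3, card_erase_of_mem m2, card_erase_of_mem m1, card_erase_of_mem ha, hU]
  obtain ⟨r, hset⟩ := card_eq_one.1 hcard
  have hr : r ∈ (((U.erase a).erase b).erase c).erase e := by rw [hset]; simp
  simp only [mem_erase] at hr
  obtain ⟨hre, hrc, hrb, hra, hrU⟩ := hr
  have hmem : ∀ y, y ∈ U → y = a ∨ y = b ∨ y = c ∨ y = e ∨ y = r := by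
    intro y hy
    by_cases h1 : y = a
    · exact Or.inl h1
    by_cases h2 : y = b
    · exact Or.inr (Or.inl h2)
    by_cases h3 : y = c
    · exact Or.inr (Or.inr (Or.inl h3))
    by_cases h4 : y = e
    · exact Or.inr (Or.inr (Or.inr (Or.inl h4)))
    have : y ∈ (((U.erase a).erase b).erase c).erase e := by
      simp only [mem_erase]
      exact ⟨h4, h3, h2, h1, hy⟩
    rw [hset, mem_singleton] at this
    exact Or.inr (Or.inr (Or.inr (Or.inr this)))
  have neu : ∀ {x : V}, x ∈ U → x ≠ u := fun hx h => huU (h ▸ hx)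
  have nev : ∀ {x : V}, x ∈ U → x ≠ v := fun hx h => hvU (h ▸ hx)
  refine fin6 hK hV hE G u a b v c e r T hT ?_ ?_ ?_ hua hub hadj
    (fun h => hnc c ⟨h, hvc⟩) (fun h => hnc e ⟨h, hve⟩) hvc hve (fun h => hnc a ⟨hua, h⟩)
    (fun h => hnc b ⟨hub, h⟩) (hcl a ha b hb hab) (hcl a ha c hc hac) (hcl a ha e he hae)
    (hcl b hb c hc hbc) (hcl b hb e he hbe) (hcl c hc e he hce)
  · simp only [List.nodup_cons, List.mem_cons, List.not_mem_nil, or_false, not_or,
      List.nodup_nil, and_true, not_false_eq_true]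
    exact ⟨⟨(neu ha).symm, (neu hb).symm, huv, (neu hc).symm, (neu he).symm, (neu hrU).symm⟩,
      ⟨hab, nev ha, hac, hae, hra.symm⟩, ⟨nev hb, hbc, hbe, hrb.symm⟩,
      ⟨(nev hc).symm, (nev he).symm, (nev hrU).symm⟩, ⟨hce, hrc.symm⟩, hre.symm⟩
  · intro y hy
    simp only [List.mem_cons, List.not_mem_nil, or_false] at hy
    rcases hy with h | h | h | h | h | h | h
    · rw [h]; exact huT
    · rw [h]; exact hUT a ha
    · rw [h]; exact hUT b hb
    · rw [h]; exact hvT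
    · rw [h]; exact hUT c hc
    · rw [h]; exact hUT e he
    · rw [h]; exact hUT r hrU
  · intro y
    rcases hcov y with h | h | h | h
    · simp [h]
    · simp [h]
    · rcases hmem y h with h | h | h | h | h <;> simp [h]
    · simp [h]

/-- the core -/
theorem sC (hK : StmK) (hV : StmV) (hE : StmE) (hN : StmN) (h1 : StmC1) (h2 : StmC2)
    (V : Type) [Fintype V] [DecidableEq V] (G : SimpleGraph V) (hdom : Dom G) (u v : V)
    (huv : u ≠ v) (hadj : ¬ G.Adj u v) (hcom : ∀ w, ¬ (G.Adj u w ∧ G.Adj w v)) : Splits G := by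
  classical
  by_cases hu : ∃ x, G.Adj u x
  swap
  · exact C.isolated G u v huv hu
  by_cases hv : ∃ x, G.Adj v x
  swap
  · exact C.isolated G v u huv.symm hv
  have hcom' : ∀ y, ¬ (G.Adj u y ∧ G.Adj v y) := fun y h => hcom y ⟨h.1, h.2.symm⟩
  obtain ⟨T, hTV, hT, hcl⟩ := (hN V G).2 (univ \ {u, v})
  have huT : u ∉ T := fun h => by
    have := hTV h
    simp at this
  have hvT : v ∉ T := fun h => by
    have := hTV h
    simp at this
  set U := (univ \ {u, v}) \ T with hU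
  have hmemU : ∀ y, y ∈ U ↔ (y ≠ u ∧ y ≠ v) ∧ y ∉ T := by
    intro y
    simp [hU]
  have hcard : U.card ≤ 5 := by
    have e1 := nonnbr hdom U hcl u (U.filter fun x => ¬ G.Adj u x) (filter_subset _ _)
      (fun x hx => (mem_filter.1 hx).2)
    have e2 := nbr hdom U hcl u v hadj hcom' (U.filter fun x => G.Adj u x) (filter_subset _ _)
      (fun x hx => (mem_filter.1 hx).2)
    have e3 := Finset.card_filter_add_card_filter_not (s := U) (fun x => G.Adj u x)
    omega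
  have hcov : ∀ y, y = u ∨ y = v ∨ y ∈ U ∨ y ∈ T := by
    intro y
    by_cases hyu : y = u
    · exact Or.inl hyu
    by_cases hyv : y = v
    · exact Or.inr (Or.inl hyv)
    by_cases hyT : y ∈ T
    · exact Or.inr (Or.inr (Or.inr hyT))
    · exact Or.inr (Or.inr (Or.inl ((hmemU y).2 ⟨⟨hyu, hyv⟩, hyT⟩)))
  have huU : u ∉ U := fun h => ((hmemU u).1 h).1.1 rfl
  have hvU : v ∉ U := fun h => ((hmemU v).1 h).1.2 rfl
  have hUT : ∀ x ∈ U, x ∉ T := fun x hx => ((hmemU x).1 hx).2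
  have hcases : U.card = 0 ∨ U.card = 1 ∨ U.card = 2 ∨ U.card = 3 ∨ U.card = 4 ∨ U.card = 5 := by
    omega
  rcases hcases with hc | hc | hc | hc | hc | hc
  · have hU0 : U = ∅ := Finset.card_eq_zero.1 hc
    refine C.zero_case hK hV hE G u v huv hadj T hT huT hvT fun y => ?_
    rcases hcov y with h | h | h | h
    · exact Or.inl h
    · exact Or.inr (Or.inl h)
    · rw [hU0] at h
      exact absurd h (Finset.notMem_empty y)
    · exact Or.inr (Or.inr h)
  · obtain ⟨w, hw⟩ := Finset.card_eq_one.1 hc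
    have hwU := (hmemU w).1 (by rw [hw]; simp)
    refine h1 V G u v w T huv hadj hcom' hu hv hT huT hvT hwU.2 hwU.1.1 hwU.1.2 fun y => ?_
    rcases hcov y with h | h | h | h
    · exact Or.inl h
    · exact Or.inr (Or.inl h)
    · rw [hw, Finset.mem_singleton] at h
      exact Or.inr (Or.inr (Or.inl h))
    · exact Or.inr (Or.inr (Or.inr h))
  · obtain ⟨w₁, w₂, h12, hw⟩ := Finset.card_eq_two.1 hc
    have hw1 : w₁ ∈ U := by rw [hw]; simp
    have hw2 : w₂ ∈ U := by rw [hw]; simp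
    have hw1U := (hmemU w₁).1 hw1
    have hw2U := (hmemU w₂).1 hw2
    refine h2 V G u v w₁ w₂ T huv hadj hcom' hu hv hT huT hvT hw1U.2 hw2U.2 hw1U.1.1 hw1U.1.2
      hw2U.1.1 hw2U.1.2 (hcl w₁ hw1 w₂ hw2 h12) fun y => ?_
    rcases hcov y with h | h | h | h
    · exact Or.inl h
    · exact Or.inr (Or.inl h)
    · rw [hw, Finset.mem_insert, Finset.mem_singleton] at h
      rcases h with h | h
      · exact Or.inr (Or.inr (Or.inl h))
      · exact Or.inr (Or.inr (Or.inr (Or.inl h)))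
    · exact Or.inr (Or.inr (Or.inr (Or.inr h)))
  · obtain ⟨w₁, w₂, w₃, h12, h13, h23, hw⟩ := Finset.card_eq_three.1 hc
    have hw1 : w₁ ∈ U := by rw [hw]; simp
    have hw2 : w₂ ∈ U := by rw [hw]; simp
    have hw3 : w₃ ∈ U := by rw [hw]; simp
    have hw1U := (hmemU w₁).1 hw1
    have hw2U := (hmemU w₂).1 hw2
    have hw3U := (hmemU w₃).1 hw3
    refine sC3 hK hV hE hN V G u v w₁ w₂ w₃ T hdom huv hadj hcom' hu hv hT huT hvT hw1U.2 hw2U.2
      hw3U.2 hw1U.1.1 hw1U.1.2 hw2U.1.1 hw2U.1.2 hw3U.1.1 hw3U.1.2 (hcl w₁ hw1 w₂ hw2 h12)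
      (hcl w₁ hw1 w₃ hw3 h13) (hcl w₂ hw2 w₃ hw3 h23) fun y => ?_
    rcases hcov y with h | h | h | h
    · exact Or.inl h
    · exact Or.inr (Or.inl h)
    · rw [hw, Finset.mem_insert, Finset.mem_insert, Finset.mem_singleton] at h
      rcases h with h | h | h
      · exact Or.inr (Or.inr (Or.inl h))
      · exact Or.inr (Or.inr (Or.inr (Or.inl h)))
      · exact Or.inr (Or.inr (Or.inr (Or.inr (Or.inl h))))
    · exact Or.inr (Or.inr (Or.inr (Or.inr (Or.inr h))))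
  · exact four hK hV hE G hdom u v huv hadj hcom' T U hT huT hvT huU hvU hUT hcl hcov hc
  · exact five hK hV hE G hdom u v huv hadj hcom' T U hT huT hvT huU hvU hUT hcl hcov hc

end H57DC
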