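import Pool.Agent.R100.DC.Stm
import Pool.Agent.R100.DC.C1

set_option autoImplicit false
set_option linter.unusedSectionVars false

namespace H57DC

open R100DC Finset

/-- every vertex has a neighbour in every `K_4` -/
def Dom {V : Type} (G : SimpleGraph V) : Prop :=
  ∀ a b c e, G.Adj a b → G.Adj a c → G.Adj a e → G.Adj b c → G.Adj b e → G.Adj c e →
    ∀ y, G.Adj y a ∨ G.Adj y b ∨ G.Adj y c ∨ G.Adj y e

namespace C3

variable {V : Type} [Fintype V] [DecidableEq V]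

theorem A_adj {G : SimpleGraph V} {a b : V} (h : G.Adj a b) : A G a b = 1 := by
  unfold A; simp [h]

theorem A_nadj {G : SimpleGraph V} {a b : V} (h : ¬ G.Adj a b) : A G a b = 0 := by
  unfold A; simp [h]

theorem A_comm (G : SimpleGraph V) (a b : V) : A G a b = A G b a := by
  by_cases h : G.Adj a b
  · rw [A_adj h, A_adj h.symm]
  · rw [A_nadj h, A_nadj (fun h' => h h'.symm)]

theorem A_self (G : SimpleGraph V) (a : V) : A G a a = 0 := by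
  unfold A; simp

theorem A_nonneg (G : SimpleGraph V) (a b : V) : 0 ≤ A G a b := by
  unfold A; split_ifs <;> norm_num

theorem A_le (G : SimpleGraph V) (a b : V) : A G a b ≤ 1 := by
  unfold A; split_ifs <;> norm_num

theorem M_self (G : SimpleGraph V) (w : V) : M G w w ≤ 2 * (Fintype.card V : ℚ) := by
  have h1 : d G w ≤ (Fintype.card V : ℚ) := by
    unfold d
    calc ∑ b, A G w b ≤ ∑ _b : V, (1 : ℚ) := Finset.sum_le_sum fun b _ => A_le G w b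
      _ = _ := by simp
  have h2 : 0 ≤ E2 G univ := by
    unfold E2
    exact Finset.sum_nonneg fun a _ => Finset.sum_nonneg fun b _ => A_nonneg G a b
  have h3 : 0 ≤ E2 G univ / (Fintype.card V : ℚ) := div_nonneg h2 (Nat.cast_nonneg _)
  unfold M
  rw [A_self]
  linarith

theorem fin4 (hK : StmK) (hV : StmV) (hE : StmE) (G : SimpleGraph V) (a b c e r : V)
    (T : Finset V) (hT : CoM G T) (hab : a ≠ b) (hac : a ≠ c) (hae : a ≠ e) (hbc : b ≠ c)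
    (hbe : b ≠ e) (hce : c ≠ e) (hra : r ≠ a) (hrb : r ≠ b) (hrc : r ≠ c) (hre : r ≠ e)
    (ha : a ∉ T) (hb : b ∉ T) (hc : c ∉ T) (he : e ∉ T) (hr : r ∉ T)
    (hcov : ∀ y, y = a ∨ y = b ∨ y = c ∨ y = e ∨ y = r ∨ y ∈ T)
    (hval : 1 ≤ A G a b + A G c e - A G a c - A G a e - A G b c - A G b e) : Splits G := by
  set z : V → ℚ := vec [(a, 1), (b, 1), (c, -1), (e, -1)] with hz
  have hQ : Q G z = -2 * (Fintype.card V : ℚ) *
      (A G a b + A G c e - A G a c - A G a e - A G b c - A G b e) := by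
    rw [hz, hV V G]
    simp only [List.map_cons, List.map_nil, List.sum_cons, List.sum_nil, M]
    rw [A_comm G b a, A_comm G c a, A_comm G e a, A_comm G c b, A_comm G e b, A_comm G e c,
      A_self, A_self, A_self, A_self]
    ring
  have hQ2 : Q G z ≤ -2 * (Fintype.card V : ℚ) := by
    rw [hQ]
    have : (0 : ℚ) ≤ Fintype.card V := Nat.cast_nonneg _
    nlinarith
  have hza : z a = 1 := by simp [hz, vec, hab, hac, hae]
  have hzb : z b = 1 := by simp [hz, vec, hab.symm, hbc, hbe]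
  have hzc : z c = -1 := by simp [hz, vec, hac.symm, hbc.symm, hce]
  have hze : z e = -1 := by simp [hz, vec, hae.symm, hbe.symm, hce.symm]
  have hzo : ∀ y, y ≠ a → y ≠ b → y ≠ c → y ≠ e → z y = 0 := by
    intro y h1 h2 h3 h4
    simp [hz, vec, h1, h2, h3, h4]
  obtain ⟨hE1, _, hE3⟩ := hE V G
  obtain ⟨z', hz'1, hz'2, hz'3⟩ := hE1 z r (hzo r hra hrb hrc hre)
  have hz'T : ∀ w ∈ T, z' w = 0 := by
    intro w hw
    rw [hz'1 w (fun h => hr (h ▸ hw))]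
    exact hzo w (fun h => ha (h ▸ hw)) (fun h => hb (h ▸ hw)) (fun h => hc (h ▸ hw))
      (fun h => he (h ▸ hw))
  obtain ⟨z'', h1, h2, h3⟩ := hE3 T hT z' hz'T
  have hva : z'' a = 1 := by rw [h1 a ha, hz'1 a hra.symm, hza]
  have hvb : z'' b = 1 := by rw [h1 b hb, hz'1 b hrb.symm, hzb]
  have hvc : z'' c = -1 := by rw [h1 c hc, hz'1 c hrc.symm, hzc]
  have hve : z'' e = -1 := by rw [h1 e he, hz'1 e hre.symm, hze]
  refine hK V G z'' ?_ ⟨a, hva⟩ ⟨c, hvc⟩ ?_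
  · intro w
    rcases hcov w with h | h | h | h | h | h
    · left; rw [h, hva]
    · left; rw [h, hvb]
    · right; rw [h, hvc]
    · right; rw [h, hve]
    · rw [h, h1 r hr]; exact hz'2
    · exact h2 w h
  · have := M_self G r
    linarith

/-- the hypotheses -/
structure H (G : SimpleGraph V) (u v w₁ w₂ w₃ : V) (T : Finset V) : Prop where
  dom : Dom G
  uv : u ≠ v
  nuv : ¬ G.Adj u v
  nc : ∀ y, ¬ (G.Adj u y ∧ G.Adj v y)
  cu : ∃ x, G.Adj u x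
  cv : ∃ x, G.Adj v x
  com : CoM G T
  uT : u ∉ T
  vT : v ∉ T
  T1 : w₁ ∉ T
  T2 : w₂ ∉ T
  T3 : w₃ ∉ T
  n1u : w₁ ≠ u
  n1v : w₁ ≠ v
  n2u : w₂ ≠ u
  n2v : w₂ ≠ v
  n3u : w₃ ≠ u
  n3v : w₃ ≠ v
  a12 : G.Adj w₁ w₂
  a13 : G.Adj w₁ w₃
  a23 : G.Adj w₂ w₃
  cov : ∀ y, y = u ∨ y = v ∨ y = w₁ ∨ y = w₂ ∨ y = w₃ ∨ y ∈ T

theorem H.s12 {G : SimpleGraph V} {u v w₁ w₂ w₃ : V} {T : Finset V} (h : H G u v w₁ w₂ w₃ T) :
    H G u v w₂ w₁ w₃ T :=
  ⟨h.dom, h.uv, h.nuv, h.nc, h.cu, h.cv, h.com, h.uT, h.vT, h.T2, h.T1, h.T3, h.n2u, h.n2v,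
    h.n1u, h.n1v, h.n3u, h.n3v, h.a12.symm, h.a23, h.a13, fun y => by
      rcases h.cov y with h | h | h | h | h | h <;> simp [h]⟩

theorem H.s23 {G : SimpleGraph V} {u v w₁ w₂ w₃ : V} {T : Finset V} (h : H G u v w₁ w₂ w₃ T) :
    H G u v w₁ w₃ w₂ T :=
  ⟨h.dom, h.uv, h.nuv, h.nc, h.cu, h.cv, h.com, h.uT, h.vT, h.T1, h.T3, h.T2, h.n1u, h.n1v,
    h.n3u, h.n3v, h.n2u, h.n2v, h.a13, h.a12, h.a23.symm, fun y => by
      rcases h.cov y with h | h | h | h | h | h <;> simp [h]⟩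

theorem H.suv {G : SimpleGraph V} {u v w₁ w₂ w₃ : V} {T : Finset V} (h : H G u v w₁ w₂ w₃ T) :
    H G v u w₁ w₂ w₃ T :=
  ⟨h.dom, h.uv.symm, fun h' => h.nuv h'.symm, fun y hy => h.nc y ⟨hy.2, hy.1⟩, h.cv, h.cu,
    h.com, h.vT, h.uT, h.T1, h.T2, h.T3, h.n1v, h.n1u, h.n2v, h.n2u, h.n3v, h.n3u, h.a12, h.a13,
    h.a23, fun y => by rcases h.cov y with h | h | h | h | h | h <;> simp [h]⟩

theorem La (hK : StmK) (hV : StmV) (hE : StmE) {G : SimpleGraph V} {u v w₁ w₂ w₃ : V}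
    {T : Finset V} (h : H G u v w₁ w₂ w₃ T) (h1 : G.Adj u w₁) (h2 : G.Adj v w₂) : Splits G := by
  refine fin4 hK hV hE G u w₁ v w₂ w₃ T h.com h.n1u.symm h.uv h.n2u.symm h.n1v h.a12.ne
    h.n2v.symm h.n3u h.a13.ne.symm h.n3v h.a23.ne.symm h.uT h.T1 h.vT h.T2 h.T3 ?_ ?_
  · intro y
    rcases h.cov y with h | h | h | h | h | h <;> simp [h]
  · rw [A_adj h1, A_adj h2, A_nadj h.nuv, A_nadj (fun h' => h.nc w₂ ⟨h', h2⟩),
      A_nadj (fun h' => h.nc w₁ ⟨h1, h'.symm⟩), A_adj h.a12]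
    norm_num

theorem Lb (hK : StmK) (hV : StmV) (hE : StmE) {G : SimpleGraph V} {u v w₁ w₂ w₃ : V}
    {T : Finset V} (h : H G u v w₁ w₂ w₃ T) (h1 : ¬ G.Adj u w₁) (h2 : ¬ G.Adj v w₁)
    (h3 : ¬ G.Adj u w₂) (h4 : ¬ G.Adj v w₂) : Splits G := by
  refine fin4 hK hV hE G u v w₁ w₂ w₃ T h.com h.uv h.n1u.symm h.n2u.symm h.n1v.symm
    h.n2v.symm h.a12.ne h.n3u h.n3v h.a13.ne.symm h.a23.ne.symm h.uT h.vT h.T1 h.T2 h.T3 ?_ ?_
  · intro y
    rcases h.cov y with h | h | h | h | h | h <;> simp [h]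
  · rw [A_adj h.a12, A_nadj h1, A_nadj h2, A_nadj h3, A_nadj h4, A_nadj h.nuv]
    norm_num

theorem Lc (hK : StmK) (hV : StmV) (hE : StmE) {G : SimpleGraph V} {u v w₁ w₂ w₃ : V}
    {T : Finset V} (h : H G u v w₁ w₂ w₃ T) {x x' : V} (hx : G.Adj u x) (hxT : x ∈ T)
    (hx'T : x' ∈ T) (hne : x' ≠ x) (hC : CoM G ((T.erase x).erase x')) (h1 : G.Adj v w₁)
    (h2 : ¬ G.Adj x' w₂) : Splits G := by
  have key : ∀ {y : V}, y ∉ T → x ≠ y ∧ x' ≠ y := fun {y} hy =>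
    ⟨fun h' => hy (h' ▸ hxT), fun h' => hy (h' ▸ hx'T)⟩
  have hC' : CoM G (insert x' (insert w₂ ((T.erase x).erase x'))) := by
    refine CoM.cons (by simp) (by simp [h.T2]) (key h.T2).2 h2 hC
  have nT : ∀ {y : V}, y ∉ T → y ≠ w₂ → y ∉ insert x' (insert w₂ ((T.erase x).erase x')) := by
    intro y hy hy2
    simp only [mem_insert, mem_erase, not_or, not_and]
    exact ⟨(key hy).2.symm, hy2, fun _ _ => hy⟩
  have hxw2 : x ≠ w₂ := (key h.T2).1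
  refine fin4 hK hV hE G u x v w₁ w₃ _ hC' (key h.uT).1.symm h.uv h.n1u.symm (key h.vT).1
    (key h.T1).1 h.n1v.symm h.n3u (key h.T3).1.symm h.n3v h.a13.ne.symm
    (nT h.uT h.n2u.symm) ?_ (nT h.vT h.n2v.symm) (nT h.T1 h.a12.ne) (nT h.T3 h.a23.ne.symm) ?_ ?_
  · simp only [mem_insert, mem_erase, not_or, not_and]
    exact ⟨hne.symm, hxw2, fun _ h' => absurd rfl h'⟩
  · intro y
    simp only [mem_insert, mem_erase]
    by_cases hy1 : y = x
    · simp [hy1]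
    by_cases hy2 : y = x'
    · simp [hy2]
    rcases h.cov y with h | h | h | h | h | h <;> simp [h, hy1, hy2]
  · rw [A_adj hx, A_adj h1, A_nadj h.nuv, A_nadj (fun h' => h.nc w₁ ⟨h', h1⟩),
      A_nadj (fun h' => h.nc x ⟨hx, h'.symm⟩)]
    have := A_le G x w₁
    linarith


theorem d_le (G : SimpleGraph V) (w : V) : d G w ≤ (Fintype.card V : ℚ) := by
  unfold d
  calc ∑ b, A G w b ≤ ∑ _b : V, (1 : ℚ) := Finset.sum_le_sum fun b _ => A_le G w b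
    _ = _ := by simp

theorem c_nn (G : SimpleGraph V) : 0 ≤ E2 G univ / (Fintype.card V : ℚ) := by
  refine div_nonneg ?_ (Nat.cast_nonneg _)
  unfold E2
  exact Finset.sum_nonneg fun a _ => Finset.sum_nonneg fun b _ => A_nonneg G a b

/-- the seven-vertex configuration -/
theorem seven (hK : StmK) (hV : StmV) (hE : StmE) {G : SimpleGraph V} {u v w₁ w₂ w₃ : V}
    {T : Finset V} (h : H G u v w₁ w₂ w₃ T) {x x' : V} (hxT : x ∈ T)
    (hx'T : x' ∈ T) (hne : x' ≠ x) (hxx : ¬ G.Adj x x') (hC : CoM G ((T.erase x).erase x'))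
    (hux : G.Adj u x) (hux' : G.Adj u x')
    (p1 : ¬ G.Adj u w₁) (p2 : ¬ G.Adj u w₂) (p3 : ¬ G.Adj u w₃)
    (q1 : G.Adj v w₁) (q2 : G.Adj v w₂) (q3 : ¬ G.Adj v w₃)
    (x1 : G.Adj x w₁) (x2 : G.Adj x w₂) (x3 : G.Adj x w₃)
    (y1 : G.Adj x' w₁) (y2 : G.Adj x' w₂) (y3 : G.Adj x' w₃) : Splits G := by
  have vx : ¬ G.Adj v x := fun h' => h.nc x ⟨hux, h'⟩
  have vx' : ¬ G.Adj v x' := fun h' => h.nc x' ⟨hux', h'⟩
  have key : ∀ {y : V}, y ∉ T → x ≠ y ∧ x' ≠ y := fun {y} hy =>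
    ⟨fun h' => hy (h' ▸ hxT), fun h' => hy (h' ▸ hx'T)⟩
  have hval : ∀ ε : ℚ, ε * ε = 1 →
      Q G (vec [(v, 1), (w₁, 1), (w₂, 1), (u, -1), (x, -1), (x', -1), (w₃, ε)]) =
      2 * ε * (d G v + d G w₁ + d G w₂ - d G u - d G x - d G x' + ε * d G w₃)
        - E2 G univ / (Fintype.card V : ℚ) - 2 * (Fintype.card V : ℚ) := by
    intro ε hε
    rw [hV V G]
    simp only [List.map_cons, List.map_nil, List.sum_cons, List.sum_nil, M]
    rw [A_comm G w₁ v, A_comm G w₂ v, A_comm G u v, A_comm G x v, A_comm G x' v, A_comm G w₃ v,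
      A_comm G w₂ w₁, A_comm G u w₁, A_comm G x w₁, A_comm G x' w₁, A_comm G w₃ w₁,
      A_comm G u w₂, A_comm G x w₂, A_comm G x' w₂, A_comm G w₃ w₂,
      A_comm G x u, A_comm G x' u, A_comm G w₃ u, A_comm G x' x, A_comm G w₃ x, A_comm G w₃ x']
    simp only [A_self]
    rw [A_adj q1, A_adj q2, A_nadj (fun h' => h.nuv h'.symm : ¬ G.Adj v u), A_nadj vx, A_nadj vx',
      A_nadj q3, A_adj h.a12, A_nadj (fun h' => p1 h'.symm : ¬ G.Adj w₁ u), A_adj x1.symm,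
      A_adj y1.symm, A_adj h.a13, A_nadj (fun h' => p2 h'.symm : ¬ G.Adj w₂ u), A_adj x2.symm,
      A_adj y2.symm, A_adj h.a23, A_adj hux, A_adj hux', A_nadj p3, A_nadj hxx, A_adj x3,
      A_adj y3]
    linear_combination (-(E2 G univ / (Fintype.card V : ℚ))) * hε
  have hsum : ∃ ε : ℚ, (ε = 1 ∨ ε = -1) ∧
      Q G (vec [(v, 1), (w₁, 1), (w₂, 1), (u, -1), (x, -1), (x', -1), (w₃, ε)]) ≤ 0 := by
    have h1 := hval 1 (by norm_num)
    have h2 := hval (-1) (by norm_num)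
    have h3 := d_le G w₃
    have h4 := c_nn G
    by_contra hcon
    push Not at hcon
    have h5 := hcon 1 (Or.inl rfl)
    have h6 := hcon (-1) (Or.inr rfl)
    linarith
  obtain ⟨ε, hε, hQ⟩ := hsum
  have nxu := (key h.uT).1
  have nxu' := (key h.uT).2
  have nxv := (key h.vT).1
  have nxv' := (key h.vT).2
  have nx1 := (key h.T1).1
  have nx1' := (key h.T1).2
  have nx2 := (key h.T2).1
  have nx2' := (key h.T2).2
  have nx3 := (key h.T3).1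
  have nx3' := (key h.T3).2
  have n12 := h.a12.ne
  have n13 := h.a13.ne
  have n23 := h.a23.ne
  have nuv := h.uv
  have m1u := h.n1u
  have m1v := h.n1v
  have m2u := h.n2u
  have m2v := h.n2v
  have m3u := h.n3u
  have m3v := h.n3v
  obtain ⟨z, hz⟩ : ∃ z, z = vec [(v, (1 : ℚ)), (w₁, 1), (w₂, 1), (u, -1), (x, -1), (x', -1), (w₃, ε)] := ⟨_, rfl⟩
  have zv : z v = 1 := by
    simp [hz, vec, nuv.symm, m1v.symm, m2v.symm, m3v.symm, nxv.symm, nxv'.symm]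
  have z1 : z w₁ = 1 := by
    simp [hz, vec, m1v, n12, m1u, nx1.symm, nx1'.symm, n13]
  have z2 : z w₂ = 1 := by
    simp [hz, vec, m2v, n12.symm, m2u, nx2.symm, nx2'.symm, n23]
  have zu : z u = -1 := by
    simp [hz, vec, nuv, m1u.symm, m2u.symm, nxu.symm, nxu'.symm, m3u.symm]
  have zx : z x = -1 := by
    simp [hz, vec, nxv, nx1, nx2, nxu, hne.symm, nx3]
  have zx' : z x' = -1 := by
    simp [hz, vec, nxv', nx1', nx2', nxu', hne, nx3']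
  have z3 : z w₃ = ε := by
    simp [hz, vec, m3v, n13.symm, n23.symm, m3u, nx3.symm, nx3'.symm]
  have zo : ∀ y, y ≠ v → y ≠ w₁ → y ≠ w₂ → y ≠ u → y ≠ x → y ≠ x' → y ≠ w₃ → z y = 0 := by
    intro y h1 h2 h3 h4 h5 h6 h7
    simp [hz, vec, h1, h2, h3, h4, h5, h6, h7]
  rw [← hz] at hQ
  refine C1.finish hK hE hC z ?_ ?_ (p := v) (q := u) zv zu hQ
  · intro t ht
    simp only [mem_erase] at ht
    obtain ⟨t1, t2, t3⟩ := ht
    exact zo t (fun h' => h.vT (h' ▸ t3)) (fun h' => h.T1 (h' ▸ t3)) (fun h' => h.T2 (h' ▸ t3))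
      (fun h' => h.uT (h' ▸ t3)) t2 t1 (fun h' => h.T3 (h' ▸ t3))
  · intro t ht
    simp only [mem_erase, not_and, ne_eq] at ht
    rcases h.cov t with h' | h' | h' | h' | h' | h'
    · right; rw [h', zu]
    · left; rw [h', zv]
    · left; rw [h', z1]
    · left; rw [h', z2]
    · rw [h', z3]; exact hε
    · by_cases t1 : t = x'
      · right; rw [t1, zx']
      · by_cases t2 : t = x
        · right; rw [t2, zx]
        · exact absurd h' (ht t1 t2)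

/-- `v` adjacent to exactly two of the three -/
theorem Ltwo (hK : StmK) (hV : StmV) (hE : StmE) (hN : StmN) {G : SimpleGraph V}
    {u v w₁ w₂ w₃ : V} {T : Finset V} (h : H G u v w₁ w₂ w₃ T) (h1 : ¬ G.Adj u w₁)
    (h2 : ¬ G.Adj u w₂) (h3 : ¬ G.Adj u w₃) (q1 : G.Adj v w₁) (q2 : G.Adj v w₂)
    (q3 : ¬ G.Adj v w₃) : Splits G := by
  obtain ⟨x, hx⟩ := h.cu
  have hxT : x ∈ T := by
    rcases h.cov x with h' | h' | h' | h' | h' | h'
    · subst h'; exact absurd hx (G.loopless.irrefl _)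
    · subst h'; exact absurd hx h.nuv
    · subst h'; exact absurd hx h1
    · subst h'; exact absurd hx h2
    · subst h'; exact absurd hx h3
    · exact h'
  obtain ⟨x', hx'T, hne, hxx, hC⟩ := (hN V G).1 T h.com x hxT
  by_cases y3 : G.Adj x' w₃
  swap
  · exact Lc hK hV hE h.s23 hx hxT hx'T hne hC q1 y3
  by_cases y2 : G.Adj x' w₂
  swap
  · exact Lc hK hV hE h hx hxT hx'T hne hC q1 y2
  by_cases y1 : G.Adj x' w₁
  swap
  · exact Lc hK hV hE h.s12 hx hxT hx'T hne hC q2 y1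
  have hux' : G.Adj u x' := by
    rcases h.dom x' w₁ w₂ w₃ y1 y2 y3 h.a12 h.a13 h.a23 u with h' | h' | h' | h'
    · exact h'
    · exact absurd h' h1
    · exact absurd h' h2
    · exact absurd h' h3
  have hC2 : CoM G ((T.erase x').erase x) := by
    rw [Finset.erase_right_comm]; exact hC
  by_cases x3 : G.Adj x w₃
  swap
  · exact Lc hK hV hE h.s23 hux' hx'T hxT hne.symm hC2 q1 x3
  by_cases x2 : G.Adj x w₂
  swap
  · exact Lc hK hV hE h hux' hx'T hxT hne.symm hC2 q1 x2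
  by_cases x1 : G.Adj x w₁
  swap
  · exact Lc hK hV hE h.s12 hux' hx'T hxT hne.symm hC2 q2 x1
  exact seven hK hV hE h hxT hx'T hne hxx hC hx hux' h1 h2 h3 q1 q2 q3 x1 x2 x3 y1 y2 y3

theorem Ld (hK : StmK) (hV : StmV) (hE : StmE) (hN : StmN) {G : SimpleGraph V}
    {u v w₁ w₂ w₃ : V} {T : Finset V} (h : H G u v w₁ w₂ w₃ T) (h1 : ¬ G.Adj u w₁)
    (h2 : ¬ G.Adj u w₂) (h3 : ¬ G.Adj u w₃) : Splits G := by
  by_cases v1 : G.Adj v w₁
  · by_cases v2 : G.Adj v w₂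
    · by_cases v3 : G.Adj v w₃
      · rcases h.dom v w₁ w₂ w₃ v1 v2 v3 h.a12 h.a13 h.a23 u with h' | h' | h' | h'
        · exact absurd h' h.nuv
        · exact absurd h' h1
        · exact absurd h' h2
        · exact absurd h' h3
      · exact Ltwo hK hV hE hN h h1 h2 h3 v1 v2 v3
    · by_cases v3 : G.Adj v w₃
      · exact Ltwo hK hV hE hN h.s23 h1 h3 h2 v1 v3 v2
      · exact Lb hK hV hE h.s12.s23 h2 v2 h3 v3
  · by_cases v2 : G.Adj v w₂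
    · by_cases v3 : G.Adj v w₃
      · exact Ltwo hK hV hE hN h.s12.s23 h2 h3 h1 v2 v3 v1
      · exact Lb hK hV hE h.s23 h1 v1 h3 v3
    · exact Lb hK hV hE h h1 v1 h2 v2

end C3

theorem sC3 (hK : StmK) (hV : StmV) (hE : StmE) (hN : StmN) (V : Type) [Fintype V]
    [DecidableEq V] (G : SimpleGraph V) (u v w₁ w₂ w₃ : V) (T : Finset V) (hdom : Dom G)
    (huv : u ≠ v) (hnuv : ¬ G.Adj u v) (hnc : ∀ y, ¬ (G.Adj u y ∧ G.Adj v y))
    (hcu : ∃ x, G.Adj u x) (hcv : ∃ x, G.Adj v x) (hcom : CoM G T) (uT : u ∉ T) (vT : v ∉ T)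
    (T1 : w₁ ∉ T) (T2 : w₂ ∉ T) (T3 : w₃ ∉ T) (n1u : w₁ ≠ u) (n1v : w₁ ≠ v) (n2u : w₂ ≠ u)
    (n2v : w₂ ≠ v) (n3u : w₃ ≠ u) (n3v : w₃ ≠ v) (a12 : G.Adj w₁ w₂) (a13 : G.Adj w₁ w₃)
    (a23 : G.Adj w₂ w₃) (hcov : ∀ y, y = u ∨ y = v ∨ y = w₁ ∨ y = w₂ ∨ y = w₃ ∨ y ∈ T) :
    Splits G := by
  have h : C3.H G u v w₁ w₂ w₃ T :=
    ⟨hdom, huv, hnuv, hnc, hcu, hcv, hcom, uT, vT, T1, T2, T3, n1u, n1v, n2u, n2v, n3u,
      n3v, a12, a13, a23, hcov⟩
  by_cases hu : (¬ G.Adj u w₁) ∧ (¬ G.Adj u w₂) ∧ (¬ G.Adj u w₃)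
  · exact C3.Ld hK hV hE hN h hu.1 hu.2.1 hu.2.2
  by_cases hv : (¬ G.Adj v w₁) ∧ (¬ G.Adj v w₂) ∧ (¬ G.Adj v w₃)
  · exact C3.Ld hK hV hE hN h.suv hv.1 hv.2.1 hv.2.2
  have hu' : G.Adj u w₁ ∨ G.Adj u w₂ ∨ G.Adj u w₃ := by tauto
  have hv' : G.Adj v w₁ ∨ G.Adj v w₂ ∨ G.Adj v w₃ := by tauto
  rcases hu' with p | p | p <;> rcases hv' with q | q | q
  · exact absurd ⟨p, q⟩ (hnc _)
  · exact C3.La hK hV hE h p q
  · exact C3.La hK hV hE h.s23 p q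
  · exact C3.La hK hV hE h.s12 p q
  · exact absurd ⟨p, q⟩ (hnc _)
  · exact C3.La hK hV hE h.s12.s23 p q
  · exact C3.La hK hV hE h.s23.s12 p q
  · exact C3.La hK hV hE h.s23.s12.s23 p q
  · exact absurd ⟨p, q⟩ (hnc _)

end H57DC
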