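import Pool.Agent.H57DC.C3

/-! H57: four or five unmatched vertices. -/

set_option autoImplicit false
set_option linter.unusedSectionVars false

namespace H57DC

open R100DC Finset C3

variable {V : Type} [Fintype V] [DecidableEq V]

/-- four vertices and a pair -/
theorem fin4p (hK : StmK) (hV : StmV) (hE : StmE) (G : SimpleGraph V) (a b c e r s : V)
    (T : Finset V) (hT : CoM G T) (hab : a ≠ b) (hac : a ≠ c) (hae : a ≠ e) (hbc : b ≠ c)
    (hbe : b ≠ e) (hce : c ≠ e) (hra : r ≠ a) (hrb : r ≠ b) (hrc : r ≠ c) (hre : r ≠ e)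
    (hsa : s ≠ a) (hsb : s ≠ b) (hsc : s ≠ c) (hse : s ≠ e) (hrs : r ≠ s)
    (ha : a ∉ T) (hb : b ∉ T) (hc : c ∉ T) (he : e ∉ T) (hr : r ∉ T) (hs : s ∉ T)
    (hcov : ∀ y, y = a ∨ y = b ∨ y = c ∨ y = e ∨ y = r ∨ y = s ∨ y ∈ T)
    (hval : 1 ≤ A G a b + A G c e - A G a c - A G a e - A G b c - A G b e) : Splits G := by
  set z : V → ℚ := vec [(a, 1), (b, 1), (c, -1), (e, -1)] with hz
  have hQ : Q G z = -2 * (Fintype.card V : ℚ) *
      (A G a b + A G c e - A G a c - A G a e - A G b c - A G b e) := by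
    rw [hz, hV V G]
    simp only [List.map_cons, List.map_nil, List.sum_cons, List.sum_nil, M]
    rw [A_comm G b a, A_comm G c a, A_comm G e a, A_comm G c b, A_comm G e b, A_comm G e c,
      A_self, A_self, A_self, A_self]
    ring
  have hn : (0 : ℚ) ≤ Fintype.card V := Nat.cast_nonneg _
  have hQ2 : Q G z ≤ -2 * (Fintype.card V : ℚ) := by
    rw [hQ]
    nlinarith
  have hza : z a = 1 := by simp [hz, vec, hab, hac, hae]
  have hzb : z b = 1 := by simp [hz, vec, hab.symm, hbc, hbe]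
  have hzc : z c = -1 := by simp [hz, vec, hac.symm, hbc.symm, hce]
  have hze : z e = -1 := by simp [hz, vec, hae.symm, hbe.symm, hce.symm]
  have hzo : ∀ y, y ≠ a → y ≠ b → y ≠ c → y ≠ e → z y = 0 := by
    intro y h1 h2 h3 h4
    simp [hz, vec, h1, h2, h3, h4]
  obtain ⟨_, hE2, hE3⟩ := hE V G
  obtain ⟨z', hz'1, hz'2, hz'3, hz'4⟩ := hE2 z r s hrs (hzo r hra hrb hrc hre)
    (hzo s hsa hsb hsc hse)
  have hz'T : ∀ w ∈ T, z' w = 0 := by
    intro w hw
    rw [hz'1 w (fun h => hr (h ▸ hw)) (fun h => hs (h ▸ hw))]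
    exact hzo w (fun h => ha (h ▸ hw)) (fun h => hb (h ▸ hw)) (fun h => hc (h ▸ hw))
      (fun h => he (h ▸ hw))
  obtain ⟨z'', h1, h2, h3⟩ := hE3 T hT z' hz'T
  have hva : z'' a = 1 := by rw [h1 a ha, hz'1 a hra.symm hsa.symm, hza]
  have hvb : z'' b = 1 := by rw [h1 b hb, hz'1 b hrb.symm hsb.symm, hzb]
  have hvc : z'' c = -1 := by rw [h1 c hc, hz'1 c hrc.symm hsc.symm, hzc]
  have hve : z'' e = -1 := by rw [h1 e he, hz'1 e hre.symm hse.symm, hze]
  refine hK V G z'' ?_ ⟨a, hva⟩ ⟨c, hvc⟩ ?_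
  · intro w
    rcases hcov w with h | h | h | h | h | h | h
    · left; rw [h, hva]
    · left; rw [h, hvb]
    · right; rw [h, hvc]
    · right; rw [h, hve]
    · rw [h, h1 r hr]; exact hz'2
    · rw [h, h1 s hs]; exact hz'3
    · exact h2 w h
  · have h5 := A_le G r s
    nlinarith

/-- six vertices and one more -/
theorem fin6 (hK : StmK) (hV : StmV) (hE : StmE) (G : SimpleGraph V) (u a b v c e r : V)
    (T : Finset V) (hT : CoM G T) (hnd : [u, a, b, v, c, e, r].Nodup)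
    (hnT : ∀ y ∈ [u, a, b, v, c, e, r], y ∉ T)
    (hcov : ∀ y, y ∈ [u, a, b, v, c, e, r] ∨ y ∈ T)
    (ua : G.Adj u a) (ub : G.Adj u b) (uv : ¬ G.Adj u v) (uc : ¬ G.Adj u c) (ue : ¬ G.Adj u e)
    (vc : G.Adj v c) (ve : G.Adj v e) (va : ¬ G.Adj v a) (vb : ¬ G.Adj v b)
    (ab : G.Adj a b) (ac : G.Adj a c) (ae : G.Adj a e) (bc : G.Adj b c) (be : G.Adj b e)
    (ce : G.Adj c e) : Splits G := by
  obtain ⟨z, hz⟩ : ∃ z, z = vec [(u, (1 : ℚ)), (a, 1), (b, 1), (v, -1), (c, -1), (e, -1)] :=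
    ⟨_, rfl⟩
  have hn : (0 : ℚ) ≤ Fintype.card V := Nat.cast_nonneg _
  have hQ : Q G z = -4 * (Fintype.card V : ℚ) := by
    rw [hz, hV V G]
    simp only [List.map_cons, List.map_nil, List.sum_cons, List.sum_nil, M]
    rw [A_comm G a u, A_comm G b u, A_comm G v u, A_comm G c u, A_comm G e u,
      A_comm G b a, A_comm G v a, A_comm G c a, A_comm G e a,
      A_comm G v b, A_comm G c b, A_comm G e b, A_comm G c v, A_comm G e v, A_comm G e c]
    simp only [A_self]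
    rw [A_adj ua, A_adj ub, A_nadj uv, A_nadj uc, A_nadj ue, A_adj ab,
      A_nadj (fun h => va h.symm : ¬ G.Adj a v), A_adj ac, A_adj ae,
      A_nadj (fun h => vb h.symm : ¬ G.Adj b v), A_adj bc, A_adj be, A_adj vc, A_adj ve, A_adj ce]
    ring
  simp only [List.nodup_cons, List.mem_cons, List.not_mem_nil, or_false, not_or, List.nodup_nil,
    and_true, not_false_eq_true] at hnd
  simp only [List.mem_cons, List.not_mem_nil, or_false, forall_eq_or_imp, forall_eq] at hnT hcov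
  obtain ⟨⟨n1, n2, n3, n4, n5, n6⟩, ⟨n7, n8, n9, n10, n11⟩, ⟨n12, n13, n14, n15⟩,
    ⟨n16, n17, n18⟩, ⟨n19, n20⟩, n21⟩ := hnd
  obtain ⟨tu, ta, tb, tv, tc, te, tr⟩ := hnT
  have zu : z u = 1 := by simp [hz, vec, n1, n2, n3, n4, n5]
  have za : z a = 1 := by simp [hz, vec, Ne.symm n1, n7, n8, n9, n10]
  have zb : z b = 1 := by simp [hz, vec, Ne.symm n2, Ne.symm n7, n12, n13, n14]
  have zv : z v = -1 := by simp [hz, vec, Ne.symm n3, Ne.symm n8, Ne.symm n12, n16, n17]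
  have zc : z c = -1 := by simp [hz, vec, Ne.symm n4, Ne.symm n9, Ne.symm n13, Ne.symm n16, n19]
  have ze : z e = -1 := by
    simp [hz, vec, Ne.symm n5, Ne.symm n10, Ne.symm n14, Ne.symm n17, Ne.symm n19]
  have zo : ∀ y, y ≠ u → y ≠ a → y ≠ b → y ≠ v → y ≠ c → y ≠ e → z y = 0 := by
    intro y h1 h2 h3 h4 h5 h6
    simp [hz, vec, h1, h2, h3, h4, h5, h6]
  obtain ⟨hE1, _, hE3⟩ := hE V G
  obtain ⟨z', h1, h2, h3⟩ := hE1 z r (zo r (Ne.symm n6) (Ne.symm n11) (Ne.symm n15) (Ne.symm n18)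
    (Ne.symm n20) (Ne.symm n21))
  refine C1.finish hK hE hT z' ?_ ?_ (p := u) (q := v) (by rw [h1 u n6, zu])
    (by rw [h1 v n18, zv]) ?_
  · intro t ht
    rw [h1 t (fun h => tr (h ▸ ht))]
    exact zo t (fun h => tu (h ▸ ht)) (fun h => ta (h ▸ ht)) (fun h => tb (h ▸ ht))
      (fun h => tv (h ▸ ht)) (fun h => tc (h ▸ ht)) (fun h => te (h ▸ ht))
  · intro t ht
    rcases hcov t with (h | h | h | h | h | h | h) | h
    · left; rw [h, h1 u n6, zu]
    · left; rw [h, h1 a n11, za]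
    · left; rw [h, h1 b n15, zb]
    · right; rw [h, h1 v n18, zv]
    · right; rw [h, h1 c n20, zc]
    · right; rw [h, h1 e n21, ze]
    · rw [h]; exact h2
    · exact absurd h ht
  · have h5 : M G r r ≤ 2 * (Fintype.card V : ℚ) := M_self G r
    linarith

end H57DC
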