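import Pool.Agent.H57DC.C
import Pool.Agent.R100.DC.F1
import Pool.Agent.R100.DC.F
import Pool.Agent.R100.DC.Fin
import Pool.Agent.R100.DC.K
import Pool.Agent.R100.DC.V
import Pool.Agent.R100.DC.E
import Pool.Agent.R100.DC.N

/-! H57: from the core to optimal partitions. -/

set_option autoImplicit false

namespace H57DC

open R100DC Finset

theorem f1 {V : Type} [Fintype V] [DecidableEq V] (G : SimpleGraph V) (hdom : Dom G)
    (hC : ∀ (W : Type) [Fintype W] [DecidableEq W] (G : SimpleGraph W), Dom G → ∀ u v : W,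
      u ≠ v → ¬ G.Adj u v → (∀ w, ¬ (G.Adj u w ∧ G.Adj w v)) → Splits G)
    (S : Finset V) (hS : ¬ TwoClub G S) :
    ∃ B C : Finset V, B.Nonempty ∧ C.Nonempty ∧ Disjoint B C ∧ B ∪ C = S ∧
      (edgesIn G S : ℚ) / (S.card : ℚ) ≤
        (edgesIn G B : ℚ) / (B.card : ℚ) + (edgesIn G C : ℚ) / (C.card : ℚ) := by
  classical
  unfold TwoClub at hS
  push Not at hS
  obtain ⟨u, hu, v, hv, huv, hnadj, hno⟩ := hS
  have hcf : Dom (G.comap (Function.Embedding.subtype fun x => x ∈ S)) := by
    intro a b c e h1 h2 h3 h4 h5 h6 y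
    exact hdom a.1 b.1 c.1 e.1 h1 h2 h3 h4 h5 h6 y.1
  obtain ⟨T, hT1, hT2, hT⟩ := hC {x // x ∈ S} (G.comap (Function.Embedding.subtype fun x => x ∈ S))
    hcf ⟨u, hu⟩ ⟨v, hv⟩ (fun h => huv (by simpa using h)) (fun h => hnadj h)
    (fun w hw => hno w.1 w.2 hw.1 hw.2)
  refine ⟨T.map (Function.Embedding.subtype fun x => x ∈ S),
    Tᶜ.map (Function.Embedding.subtype fun x => x ∈ S), hT1.map, hT2.map, ?_, ?_, ?_⟩
  · rw [Finset.disjoint_map]
    exact disjoint_compl_right
  · rw [← Finset.map_union, Finset.union_compl]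
    ext x
    simp
  · rw [F1.edgesIn_eq, F1.edgesIn_eq, F1.edgesIn_eq, Finset.card_map, Finset.card_map]
    have h1 := F1.E2_map G S T
    have h2 := F1.E2_map G S Tᶜ
    have h3 := F1.E2_map G S univ
    have h4 : (univ : Finset {x // x ∈ S}).map (Function.Embedding.subtype fun x => x ∈ S) = S := by
      ext x
      simp
    rw [h4] at h3
    rw [h1, h2, h3, Fintype.card_coe] at hT
    have e : ∀ a b : ℚ, a / 2 / b = a / b / 2 := fun a b => by rw [div_right_comm]
    rw [e, e, e]
    linarith

theorem final {V : Type} [Fintype V] [DecidableEq V] (G : SimpleGraph V) (hdom : Dom G) :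
    (∃ P : Finpartition (univ : Finset V), Optimal G P ∧ ∀ S ∈ P.parts, TwoClub G S) ∧
    ∀ P : Finpartition (univ : Finset V), Optimal G P →
      (∀ P' : Finpartition (univ : Finset V), Optimal G P' → P'.parts.card ≤ P.parts.card) →
      ∀ S ∈ P.parts, TwoClub G S := by
  classical
  have core := sC sK sV sE sN (sC1 sK sV sE sN) (sC2 sK sV sE sN)
  have key : ∀ P : Finpartition (univ : Finset V), Optimal G P →
      (∀ P' : Finpartition (univ : Finset V), Optimal G P' → P'.parts.card ≤ P.parts.card) →
      ∀ S ∈ P.parts, TwoClub G S := by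
    intro P hP hmax S hS
    by_contra hcon
    obtain ⟨B, C, hB, hC, hBC, hu, hle⟩ := f1 G hdom core S hcon
    obtain ⟨P', hP', hd⟩ := F.main G P hS hB hC hBC hu
    have h2 := hP P'
    have h3 : density G P' = density G P := by linarith
    have h4 := hmax P' (fun P'' => by rw [h3]; exact hP P'')
    omega
  refine ⟨?_, key⟩
  have hfin : Finite (Finpartition (univ : Finset V)) := by
    refine Finite.of_injective (fun P => P.parts) ?_
    intro P P' h
    exact Finpartition.ext h
  have := Fintype.ofFinite (Finpartition (univ : Finset V))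
  have : Nonempty (Finpartition (univ : Finset V)) := ⟨⊥⟩
  obtain ⟨P0, hP0⟩ := Finite.exists_max (fun P : Finpartition (univ : Finset V) => density G P)
  obtain ⟨P, hP, hPmax⟩ := Finset.exists_max_image
    (Finset.univ.filter (fun P : Finpartition (univ : Finset V) => Optimal G P))
    (fun P => P.parts.card) ⟨P0, Finset.mem_filter.mpr ⟨Finset.mem_univ _, hP0⟩⟩
  have hP' : Optimal G P := (Finset.mem_filter.mp hP).2
  refine ⟨P, hP', key P hP' ?_⟩
  intro P' h
  exact hPmax P' (Finset.mem_filter.mpr ⟨Finset.mem_univ _, h⟩)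

/-- the hypothesis in terms of cliques -/
theorem dom_of {V : Type} [DecidableEq V] (G : SimpleGraph V)
    (h : ∀ K : Finset V, G.IsNClique 4 K → ∀ y, y ∉ K → ∃ x ∈ K, G.Adj y x) : Dom G := by
  intro a b c e hab hac hae hbc hbe hce y
  by_cases hy : y ∈ ({a, b, c, e} : Finset V)
  · simp only [Finset.mem_insert, Finset.mem_singleton] at hy
    rcases hy with rfl | rfl | rfl | rfl
    · exact Or.inr (Or.inl hab)
    · exact Or.inl hab.symm
    · exact Or.inl hac.symm
    · exact Or.inl hae.symm
  · have hK : G.IsNClique 4 {a, b, c, e} := by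
      rw [SimpleGraph.isNClique_iff]
      constructor
      · rw [SimpleGraph.isClique_iff]
        intro s hs t ht hst
        simp only [coe_insert, coe_singleton, Set.mem_insert_iff, Set.mem_singleton_iff] at hs ht
        rcases hs with rfl | rfl | rfl | rfl <;> rcases ht with rfl | rfl | rfl | rfl <;>
          first
          | exact absurd rfl hst
          | assumption
          | exact SimpleGraph.Adj.symm (by assumption)
      · rw [card_insert_of_notMem, card_insert_of_notMem, card_insert_of_notMem, card_singleton]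
        · simp [hce.ne]
        · simp [hbc.ne, hbe.ne]
        · simp [hab.ne, hac.ne, hae.ne]
    obtain ⟨x, hx, hyx⟩ := h _ hK y hy
    simp only [Finset.mem_insert, Finset.mem_singleton] at hx
    rcases hx with rfl | rfl | rfl | rfl
    · exact Or.inl hyx
    · exact Or.inr (Or.inl hyx)
    · exact Or.inr (Or.inr (Or.inl hyx))
    · exact Or.inr (Or.inr (Or.inr hyx))

end H57DC
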